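import Pool.Agent.Helper10.CR.Goals2

/-!
# Project CR, packet CR-LAI: linear algebra for case I
-/

universe u v

namespace Pool.Agent.Helper58.CR

open _root_.Pool.Agent.Helper10.CR

/-- Finite spanning families of a subspace of `k^ι` describe the subspace `E ⊗ M`. -/
theorem tens_iff {k : Type u} [Field k] {ι : Type} [Finite ι] (E : Submodule k (ι → k)) :
    ∃ (n : ℕ) (g : Fin n → ι → k), (∀ j, g j ∈ E) ∧
      ∀ (M : Type u) [AddCommGroup M] [Module k M] (P : ι → M),
        P ∈ tens (M := M) E ↔ ∃ w : Fin n → M, P = fun i => ∑ j, g j i • w j := by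
  have := Fintype.ofFinite ι
  let b := Module.finBasis k E
  refine ⟨Module.finrank k E, fun j => (b j : ι → k), fun j => (b j).2, ?_⟩
  intro M _ _ P
  constructor
  · intro hP
    refine Submodule.span_induction (p := fun P _ => ∃ w : Fin (Module.finrank k E) → M,
      P = fun i => ∑ j, (b j : ι → k) i • w j) ?_ ?_ ?_ ?_ hP
    · rintro _ ⟨ε, hε, m, rfl⟩
      refine ⟨fun j => b.repr ⟨ε, hε⟩ j • m, ?_⟩
      have h := b.sum_repr ⟨ε, hε⟩
      have h1 := congrArg Subtype.val h
      simp only [Submodule.coe_sum, Submodule.coe_smul] at h1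
      funext i
      have h2 := congrFun h1 i
      simp only [Finset.sum_apply, Pi.smul_apply, smul_eq_mul] at h2
      rw [← h2, Finset.sum_smul]
      exact Finset.sum_congr rfl fun j _ => by rw [smul_smul, mul_comm]
    · exact ⟨0, by funext i; simp⟩
    · rintro _ _ _ _ ⟨w, rfl⟩ ⟨w', rfl⟩
      refine ⟨w + w', ?_⟩
      funext i
      simp only [Pi.add_apply, smul_add, Finset.sum_add_distrib]
    · rintro t _ _ ⟨w, rfl⟩
      refine ⟨t • w, ?_⟩
      funext i
      simp only [Pi.smul_apply, Finset.smul_sum, smul_comm t]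
  · rintro ⟨w, rfl⟩
    have : (fun i => ∑ j, (b j : ι → k) i • w j) = ∑ j, (fun i => (b j : ι → k) i • w j) := by
      funext i
      simp
    rw [this]
    exact Submodule.sum_mem _ fun j _ => Submodule.subset_span ⟨_, (b j).2, w j, rfl⟩

section act

variable {k : Type u} [Field k] {q : ℕ} {W : Type v} [AddCommGroup W] [Module k W]

/-- A square matrix acts on families of vectors. -/
def act (p : Matrix (Fin q) (Fin q) k) (w : Fin q → W) : Fin q → W :=
  fun c => ∑ c', p c c' • w c'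

theorem act_add (p : Matrix (Fin q) (Fin q) k) (w w' : Fin q → W) :
    act p (w + w') = act p w + act p w' := by
  funext c
  simp [act, Finset.sum_add_distrib]

theorem act_neg (p : Matrix (Fin q) (Fin q) k) (w : Fin q → W) :
    act p (-w) = -act p w := by
  funext c
  simp [act, Finset.sum_neg_distrib]

theorem act_sub (p : Matrix (Fin q) (Fin q) k) (w w' : Fin q → W) :
    act p (w - w') = act p w - act p w' := by
  rw [sub_eq_add_neg, act_add, act_neg, ← sub_eq_add_neg]

theorem act_zero (p : Matrix (Fin q) (Fin q) k) : act p (0 : Fin q → W) = 0 := by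
  funext c
  simp [act]

theorem one_act (w : Fin q → W) : act (1 : Matrix (Fin q) (Fin q) k) w = w := by
  funext c
  simp [act, Matrix.one_apply]

theorem sub_act (p p' : Matrix (Fin q) (Fin q) k) (w : Fin q → W) :
    act (p - p') w = act p w - act p' w := by
  funext c
  simp [act, sub_smul, Finset.sum_sub_distrib]

theorem act_act (p p' : Matrix (Fin q) (Fin q) k) (w : Fin q → W) :
    act p (act p' w) = act (p * p') w := by
  funext c
  simp only [act, Matrix.mul_apply, Finset.sum_smul, Finset.smul_sum, smul_smul]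
  rw [Finset.sum_comm]

theorem map_act {W' : Type*} [AddCommGroup W'] [Module k W'] (f : W →ₗ[k] W')
    (p : Matrix (Fin q) (Fin q) k) (w : Fin q → W) (c : Fin q) :
    f (act p w c) = act p (fun c => f (w c)) c := by
  simp [act, map_sum]

theorem act_mem (S : Submodule k W) (p : Matrix (Fin q) (Fin q) k) {w : Fin q → W}
    (h : ∀ c, w c ∈ S) (c : Fin q) : act p w c ∈ S :=
  Submodule.sum_mem _ fun c' _ => Submodule.smul_mem _ _ (h c')

theorem act_vec (p : Matrix (Fin q) (Fin q) k) (a b c d : Fin q → W) (i : Fin q) :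
    act p (fun i => (![a i, b i, c i, d i] : Fin 4 → W)) i =
      ![act p a i, act p b i, act p c i, act p d i] := by
  ext j
  fin_cases j <;> simp [act]

theorem act_mem4 (S : Submodule k (Fin 4 → W)) (p : Matrix (Fin q) (Fin q) k)
    {a b c d : Fin q → W} (h : ∀ i, ![a i, b i, c i, d i] ∈ S) (i : Fin q) :
    ![act p a i, act p b i, act p c i, act p d i] ∈ S := by
  rw [← act_vec]
  exact act_mem S p h i

end act

/-- A projection onto a subspace of `k^q`, as a matrix. -/
theorem exists_proj {k : Type u} [Field k] {q : ℕ} (Ξ : Submodule k (Fin q → k)) :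
    ∃ p : Matrix (Fin q) (Fin q) k, (∀ c, (fun c' => p c' c) ∈ Ξ) ∧
      (∀ ξ ∈ Ξ, act p ξ = ξ) ∧ p * p = p := by
  obtain ⟨f, hf⟩ := LinearMap.exists_leftInverse_of_injective Ξ.subtype (by simp)
  have hf' : ∀ x : Ξ, f x = x := fun x => by
    have := LinearMap.congr_fun hf x
    simpa using this
  refine ⟨LinearMap.toMatrix' (Ξ.subtype ∘ₗ f), fun c => ?_, fun ξ hξ => ?_, ?_⟩
  · have : (fun c' => LinearMap.toMatrix' (Ξ.subtype ∘ₗ f) c' c) =
        (Ξ.subtype ∘ₗ f) (Pi.single c 1) := by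
      funext c'
      rw [LinearMap.toMatrix'_apply]
    rw [this]
    exact (f _).2
  · have h1 : act (LinearMap.toMatrix' (Ξ.subtype ∘ₗ f)) ξ =
        Matrix.mulVec (LinearMap.toMatrix' (Ξ.subtype ∘ₗ f)) ξ := by
      funext c
      rfl
    rw [h1, LinearMap.toMatrix'_mulVec]
    have := hf' ⟨ξ, hξ⟩
    simp only [LinearMap.comp_apply]
    rw [this]
    rfl
  · rw [← LinearMap.toMatrix'_comp]
    congr 1
    refine LinearMap.ext fun x => ?_
    exact congrArg Subtype.val (hf' (f x))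

theorem act_sum_smul {k : Type u} [Field k] {q n : ℕ} {W : Type v} [AddCommGroup W] [Module k W]
    {p : Matrix (Fin q) (Fin q) k} {d : Fin n → Fin q → k} (h : ∀ l, act p (d l) = d l)
    (z : Fin n → W) : act p (fun c => ∑ l, d l c • z l) = fun c => ∑ l, d l c • z l := by
  funext c
  simp only [act, Finset.smul_sum, smul_smul]
  rw [Finset.sum_comm]
  refine Finset.sum_congr rfl fun l _ => ?_
  rw [← Finset.sum_smul]
  congr 1
  exact congrFun (h l) c

theorem mem4_congr {k : Type u} [Field k] {W : Type v} [AddCommGroup W] [Module k W]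
    {S : Submodule k (Fin 4 → W)} {a b c d a' b' c' d' : W} (h : ![a, b, c, d] ∈ S)
    (ha : a = a') (hb : b = b') (hc : c = c') (hd : d = d') : ![a', b', c', d'] ∈ S := by
  subst ha hb hc hd
  exact h

theorem mem4_add {k : Type u} [Field k] {W : Type v} [AddCommGroup W] [Module k W]
    {S : Submodule k (Fin 4 → W)} {a b c d a' b' c' d' : W} (h : ![a, b, c, d] ∈ S)
    (h' : ![a', b', c', d'] ∈ S) : ![a + a', b + b', c + c', d + d'] ∈ S := by
  have := add_mem h h'
  convert this using 1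
  ext j
  fin_cases j <;> rfl

theorem mem4_sub {k : Type u} [Field k] {W : Type v} [AddCommGroup W] [Module k W]
    {S : Submodule k (Fin 4 → W)} {a b c d a' b' c' d' : W} (h : ![a, b, c, d] ∈ S)
    (h' : ![a', b', c', d'] ∈ S) : ![a - a', b - b', c - c', d - d'] ∈ S := by
  have := sub_mem h h'
  convert this using 1
  ext j
  fin_cases j <;> rfl

/-- The linear algebra of case I: the condition. -/
theorem main {k : Type u} [Field k] {q : ℕ} {EA : Submodule k (IA 2 q → k)}
    {ED : Submodule k (ID 2 q → k)}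
    {p : Matrix (Fin q) (Fin q) k}
    (hE : ∀ c, (Sum.elim (fun _ => 0) (fun i => if i.1 = 0 then p i.2 c else 0) :
      IA 2 q → k) ∈ EA) (hp : p * p = p)
    {nA : ℕ} {g : Fin nA → IA 2 q → k} (hg : ∀ (M : Type u) [AddCommGroup M] [Module k M]
      (P : IA 2 q → M), P ∈ tens (M := M) EA ↔ ∃ w : Fin nA → M, P = fun i => ∑ j, g j i • w j)
    {nD : ℕ} {d : Fin nD → ID 2 q → k} (hd : ∀ (M : Type u) [AddCommGroup M] [Module k M]
      (P : ID 2 q → M), P ∈ tens (M := M) ED ↔ ∃ w : Fin nD → M, P = fun i => ∑ j, d j i • w j)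
    (hpd : ∀ l, act p (fun c => d l (Sum.inr c)) = fun c => d l (Sum.inr c))
    {X : RS k 4} (hX : PI X) {M : Type u} [AddCommGroup M] [Module k M]
    {r σ : M →ₗ[k] X.V} (hr : ∀ m, ![0, 0, r m, σ m] ∈ X.Rel)
    (hs : ∀ y s, ![0, 0, y, s] ∈ X.Rel → ∃ m, r m = y) (v : X.V) :
    (∃ (w : Fin nA → X.V) (m m' : Fin nD → X.V),
      v = ∑ j, g j (Sum.inl ()) • w j + ∑ l, d l (Sum.inl (Sum.inl ())) • m l ∧
      (∀ l, ![0, 0, m l, m' l] ∈ X.Rel) ∧
      (∀ c, ![0, 0, ∑ l, d l (Sum.inr c) • m l,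
        -act p (fun c => ∑ j, g j (Sum.inr (1, c)) • w j +
          ∑ l, d l (Sum.inl (Sum.inr (1, c))) • m l) c] ∈ X.Rel) ∧
      ∀ c, ![act (1 - p) (fun c => ∑ j, g j (Sum.inr (0, c)) • w j +
          ∑ l, d l (Sum.inl (Sum.inr (0, c))) • m l) c,
        -act (1 - p) (fun c => ∑ j, g j (Sum.inr (1, c)) • w j +
          ∑ l, d l (Sum.inl (Sum.inr (1, c))) • m l) c, 0, 0] ∈ X.Rel) ↔
    ∃ P ∈ tens (M := X.V) EA, ∃ Q ∈ tens (M := M) ED,
        v = P (Sum.inl ()) + r (Q (Sum.inl (Sum.inl ()))) ∧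
        ∀ c, ![P (Sum.inr (0, c)) + r (Q (Sum.inl (Sum.inr (0, c)))),
          -(P (Sum.inr (1, c)) + r (Q (Sum.inl (Sum.inr (1, c))))) - σ (Q (Sum.inr c)), 0, 0] ∈
            X.Rel := by
  constructor
  · rintro ⟨w, m, m', hv, hm, h1, h2⟩
    choose z hz using fun l => hs _ _ (hm l)
    obtain rfl : m = fun l => r (z l) := funext fun l => (hz l).symm
    have hK : act p (fun c => ∑ l, d l (Sum.inr c) • z l) =
      fun c => ∑ l, d l (Sum.inr c) • z l := act_sum_smul hpd z
    have hS : act p (fun c => σ (∑ l, d l (Sum.inr c) • z l)) =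
        fun c => σ (∑ l, d l (Sum.inr c) • z l) := by
      funext c
      rw [← map_act σ p (fun c => ∑ l, d l (Sum.inr c) • z l) c, hK]
    generalize hf0 : (fun c => ∑ j, g j (Sum.inr (0, c)) • w j +
          ∑ l, d l (Sum.inl (Sum.inr (0, c))) • r (z l)) = f0 at h2
    generalize hf1 : (fun c => ∑ j, g j (Sum.inr (1, c)) • w j +
          ∑ l, d l (Sum.inl (Sum.inr (1, c))) • r (z l)) = f1 at h1 h2
    generalize hs' : (fun c => σ (∑ l, d l (Sum.inr c) • z l)) = s at hS
    have h3 : ∀ c, ∃ y, ![y, -act p f1 c - s c, 0, 0] ∈ X.Rel := by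
      intro c
      apply hX.xs'
      have h4 := mem4_sub (h1 c) (hr (∑ l, d l (Sum.inr c) • z l))
      refine mem4_congr h4 (by simp) (by simp) (by simp [map_sum]) ?_
      rw [← hs']
    choose y hy using h3
    refine ⟨fun i => ∑ j, g j i • w j + ∑ c, (Sum.elim (fun _ => 0)
        (fun i => if i.1 = 0 then p i.2 c else 0) : IA 2 q → k) i • (y c - f0 c), ?_,
      fun i => ∑ l, d l i • z l, (hd M _).2 ⟨z, rfl⟩, ?_, ?_⟩
    · have h5 : (fun i => ∑ j, g j i • w j + ∑ c, (Sum.elim (fun _ => 0)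
        (fun i => if i.1 = 0 then p i.2 c else 0) : IA 2 q → k) i • (y c - f0 c)) =
        (fun i => ∑ j, g j i • w j) + ∑ c, fun i => (Sum.elim (fun _ => 0)
        (fun i => if i.1 = 0 then p i.2 c else 0) : IA 2 q → k) i • (y c - f0 c) := by
        funext i
        simp
      rw [h5]
      exact add_mem ((hg _ _).2 ⟨w, rfl⟩)
        (Submodule.sum_mem _ fun c _ => Submodule.subset_span ⟨_, hE c, _, rfl⟩)
    · rw [hv]
      simp [map_sum]
    · intro c
      have h6 := act_mem4 X.Rel p hy c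
      have h7 := mem4_add h6 (h2 c)
      have e0 : ∑ j, g j (Sum.inr (0, c)) • w j +
          ∑ l, d l (Sum.inl (Sum.inr (0, c))) • r (z l) = f0 c := congrFun hf0 c
      have e1 : ∑ j, g j (Sum.inr (1, c)) • w j +
          ∑ l, d l (Sum.inl (Sum.inr (1, c))) • r (z l) = f1 c := congrFun hf1 c
      have e2 : σ (∑ l, d l (Sum.inr c) • z l) = s c := congrFun hs' c
      have e3 : ∑ x, p c x • (y x - f0 x) = act p y c - act p f0 c := by
        rw [← Pi.sub_apply, ← act_sub]
        rfl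
      refine mem4_congr h7 ?_ ?_ ?_ ?_
      · rw [sub_act, one_act, Pi.sub_apply, ← e0]
        simp only [Sum.elim_inr, if_true, map_sum, map_smul]
        rw [e3]
        abel
      · have h8 : act p (fun c => -act p f1 c - s c) c = - act p f1 c - s c := by
          have : (fun c => -act p f1 c - s c) = - act p f1 - s := rfl
          rw [this, act_sub, act_neg, act_act, hp, hS]
          rfl
        rw [h8, sub_act, one_act, Pi.sub_apply, ← e2, ← e1]
        simp only [Sum.elim_inr, map_sum, map_smul, one_ne_zero, if_false, zero_smul,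
          Finset.sum_const_zero]
        abel
      · rw [add_zero]
        exact congrFun (act_zero p) c
      · rw [add_zero]
        exact congrFun (act_zero p) c
  · rintro ⟨P, hP, Q, hQ, hv, h⟩
    obtain ⟨w, rfl⟩ := (hg _ P).1 hP
    obtain ⟨z, rfl⟩ := (hd _ Q).1 hQ
    have hK : act p (fun c => ∑ l, d l (Sum.inr c) • z l) =
      fun c => ∑ l, d l (Sum.inr c) • z l := act_sum_smul hpd z
    have hS : act p (fun c => σ (∑ l, d l (Sum.inr c) • z l)) =
        fun c => σ (∑ l, d l (Sum.inr c) • z l) := by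
      funext c
      rw [← map_act σ p (fun c => ∑ l, d l (Sum.inr c) • z l) c, hK]
    refine ⟨w, fun l => r (z l), fun l => σ (z l), ?_, fun l => hr _, ?_, ?_⟩
    · rw [hv]
      simp [map_sum]
    all_goals
      have h' : ∀ c, ![∑ j, g j (Sum.inr (0, c)) • w j +
            ∑ l, d l (Sum.inl (Sum.inr (0, c))) • r (z l),
          (-(fun c => ∑ j, g j (Sum.inr (1, c)) • w j +
            ∑ l, d l (Sum.inl (Sum.inr (1, c))) • r (z l)) -
            fun c => σ (∑ l, d l (Sum.inr c) • z l)) c, 0, 0] ∈ X.Rel := by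
        intro c
        refine mem4_congr (h c) ?_ ?_ rfl rfl
        · simp only [map_sum, map_smul]
        · simp only [map_sum, map_smul, Pi.sub_apply, Pi.neg_apply]
      generalize hf0 : (fun c => ∑ j, g j (Sum.inr (0, c)) • w j +
            ∑ l, d l (Sum.inl (Sum.inr (0, c))) • r (z l)) = f0
      have h0 : ∀ c, f0 c = ∑ j, g j (Sum.inr (0, c)) • w j +
            ∑ l, d l (Sum.inl (Sum.inr (0, c))) • r (z l) := fun c => by rw [← hf0]
      simp only [← h0] at h'
      generalize hf1 : (fun c => ∑ j, g j (Sum.inr (1, c)) • w j +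
            ∑ l, d l (Sum.inl (Sum.inr (1, c))) • r (z l)) = f1 at h' ⊢
      generalize hs' : (fun c => σ (∑ l, d l (Sum.inr c) • z l)) = s at h' hS
    · intro c
      have h1 := act_mem4 X.Rel p h' c
      have h2 := hX.sx (act p f0 c) (act p (-f1 - s) c) (mem4_congr h1 rfl rfl
        (congrFun (act_zero p) c) (congrFun (act_zero p) c))
      have h3 := mem4_add h2 (hr (∑ l, d l (Sum.inr c) • z l))
      have e2 : σ (∑ l, d l (Sum.inr c) • z l) = s c := congrFun hs' c
      refine mem4_congr h3 (by simp) (by simp) (by simp [map_sum]) ?_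
      rw [act_sub, act_neg, hS, e2]
      simp
    · intro c
      have h1 := act_mem4 X.Rel (1 - p) h' c
      refine mem4_congr h1 rfl ?_ (congrFun (act_zero _) c) (congrFun (act_zero _) c)
      rw [act_sub, act_neg, sub_act 1 p s, one_act, hS]
      simp

/-- The linear form given by the coefficients. -/
theorem sum_form {k : Type u} [Field k] {nA nD : ℕ} {W : Type v} [AddCommGroup W] [Module k W]
    (a : Fin nA → k) (b c : Fin nD → k) (y : Fin nA ⊕ (Fin nD ⊕ Fin nD) → W) :
    ∑ i, (Sum.elim a (Sum.elim b c) : Fin nA ⊕ (Fin nD ⊕ Fin nD) → k) i • y i =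
      ∑ j, a j • y (Sum.inl j) + (∑ l, b l • y (Sum.inr (Sum.inl l)) +
        ∑ l, c l • y (Sum.inr (Sum.inr l))) := by
  simp [Fintype.sum_sum_type]

theorem row4 {k : Type u} [Field k] {ν : Type} [Fintype ν] {W : Type v} [AddCommGroup W]
    [Module k W] (a b c d : ν → k) (v : W) (y : ν → W) :
    (fun i => (0 : k) • v + ∑ j, (![a, b, c, d] : Fin 4 → ν → k) i j • y j) =
      ![∑ j, a j • y j, ∑ j, b j • y j, ∑ j, c j • y j, ∑ j, d j • y j] := by
  funext i
  fin_cases i <;> simp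

theorem goalLAI : GoalLAI.{u} := by
  intro k _ q EA ED _ hED
  obtain ⟨nA, g, -, hg⟩ := tens_iff EA
  obtain ⟨nD, d, hdE, hd⟩ := tens_iff ED
  obtain ⟨p, hp1, hp2, hp3⟩ := exists_proj (ED.map (LinearMap.funLeft k k (Sum.inr : Fin q → ID 2 q)))
  have hE : ∀ c, (Sum.elim (fun _ => 0) (fun i => if i.1 = 0 then p i.2 c else 0) :
      IA 2 q → k) ∈ EA := by
    intro c
    obtain ⟨ε, hε, h⟩ := hp1 c
    have := hED ε hε
    convert this using 1
    funext i
    rcases i with i | ⟨i, c'⟩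
    · rfl
    · have h2 : ε (Sum.inr c') = p c' c := congrFun h c'
      simp only [Sum.elim_inr, h2]
  have hpd : ∀ l, act p (fun c => d l (Sum.inr c)) = fun c => d l (Sum.inr c) := by
    intro l
    exact hp2 _ ⟨d l, hdE l, rfl⟩
  let κf : Fin q → Fin nD → k := fun c l => d l (Sum.inr c)
  let fA : Fin 2 → Fin q → Fin nA → k := fun i c j => g j (Sum.inr (i, c))
  let fD : Fin 2 → Fin q → Fin nD → k := fun i c l => d l (Sum.inl (Sum.inr (i, c)))
  refine ⟨RF.mk' (ν := Fin nA ⊕ (Fin nD ⊕ Fin nD)) (σ := Unit) (θ := Fin nD ⊕ (Fin q ⊕ Fin q))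
    (fun _ => -1)
    (fun _ => Sum.elim (fun j => g j (Sum.inl ())) (Sum.elim
      (fun l => d l (Sum.inl (Sum.inl ()))) 0))
    (fun _ _ => 0)
    (Sum.elim
      (fun l => ![0, 0, Sum.elim 0 (Sum.elim (Pi.single l 1) 0),
        Sum.elim 0 (Sum.elim 0 (Pi.single l 1))])
      (Sum.elim
        (fun c => ![0, 0, Sum.elim 0 (Sum.elim (κf c) 0),
          Sum.elim (-act p (fA 1) c) (Sum.elim (-act p (fD 1) c) 0)])
        (fun c => ![Sum.elim (act (1 - p) (fA 0) c) (Sum.elim (act (1 - p) (fD 0) c) 0),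
          Sum.elim (-act (1 - p) (fA 1) c) (Sum.elim (-act (1 - p) (fD 1) c) 0), 0, 0]))), ?_⟩
  intro X hX M _ _ r σ hr hs v
  rw [← main hE hp3 hg hd hpd hX hr hs v, RF.mem_mk']
  have act_form : ∀ (P : Matrix (Fin q) (Fin q) k) (i : Fin 2) (y : Fin nA ⊕ (Fin nD ⊕ Fin nD) → X.V)
      (c : Fin q), ∑ j, act P (fA i) c j • y (Sum.inl j) +
        ∑ l, act P (fD i) c l • y (Sum.inr (Sum.inl l)) =
      act P (fun c => ∑ j, g j (Sum.inr (i, c)) • y (Sum.inl j) +
          ∑ l, d l (Sum.inl (Sum.inr (i, c))) • y (Sum.inr (Sum.inl l))) c := by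
    intro P i y c
    simp only [act, smul_add, Finset.smul_sum, Finset.sum_apply, Pi.smul_apply, smul_eq_mul,
      Finset.sum_smul, smul_smul, Finset.sum_add_distrib]
    rw [Finset.sum_comm]
    congr 1
    rw [Finset.sum_comm]
  have e1 : ∀ (y : Fin nA ⊕ (Fin nD ⊕ Fin nD) → X.V), (-1 : k) • v +
      ∑ i, (Sum.elim (fun j => g j (Sum.inl ())) (Sum.elim
        (fun l => d l (Sum.inl (Sum.inl ()))) 0) : Fin nA ⊕ (Fin nD ⊕ Fin nD) → k) i • y i = 0 ↔
      v = ∑ j, g j (Sum.inl ()) • y (Sum.inl j) +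
        ∑ l, d l (Sum.inl (Sum.inl ())) • y (Sum.inr (Sum.inl l)) := by
    intro y
    rw [sum_form, neg_one_smul, neg_add_eq_zero]
    simp
  have e2 : ∀ (y : Fin nA ⊕ (Fin nD ⊕ Fin nD) → X.V) (l : Fin nD),
      ![∑ i, (0 : Fin nA ⊕ (Fin nD ⊕ Fin nD) → k) i • y i,
        ∑ i, (0 : Fin nA ⊕ (Fin nD ⊕ Fin nD) → k) i • y i,
        ∑ i, (Sum.elim 0 (Sum.elim (Pi.single l 1) 0) :
          Fin nA ⊕ (Fin nD ⊕ Fin nD) → k) i • y i,
        ∑ i, (Sum.elim 0 (Sum.elim 0 (Pi.single l 1)) :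
          Fin nA ⊕ (Fin nD ⊕ Fin nD) → k) i • y i] =
      ![0, 0, y (Sum.inr (Sum.inl l)), y (Sum.inr (Sum.inr l))] := by
    intro y l
    rw [sum_form, sum_form]
    simp [Pi.single_apply]
  have e3 : ∀ (y : Fin nA ⊕ (Fin nD ⊕ Fin nD) → X.V) (c : Fin q),
      ![∑ i, (0 : Fin nA ⊕ (Fin nD ⊕ Fin nD) → k) i • y i,
        ∑ i, (0 : Fin nA ⊕ (Fin nD ⊕ Fin nD) → k) i • y i,
        ∑ i, (Sum.elim 0 (Sum.elim (κf c) 0) : Fin nA ⊕ (Fin nD ⊕ Fin nD) → k) i • y i,
        ∑ i, (Sum.elim (-act p (fA 1) c) (Sum.elim (-act p (fD 1) c) 0) :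
          Fin nA ⊕ (Fin nD ⊕ Fin nD) → k) i • y i] =
      ![0, 0, ∑ l, d l (Sum.inr c) • y (Sum.inr (Sum.inl l)),
        -act p (fun c => ∑ j, g j (Sum.inr (1, c)) • y (Sum.inl j) +
          ∑ l, d l (Sum.inl (Sum.inr (1, c))) • y (Sum.inr (Sum.inl l))) c] := by
    intro y c
    rw [sum_form, sum_form, ← act_form p 1 y c]
    simp [κf, Finset.sum_neg_distrib, neg_smul, add_comm]
  have e4 : ∀ (y : Fin nA ⊕ (Fin nD ⊕ Fin nD) → X.V) (c : Fin q),
      ![∑ i, (Sum.elim (act (1 - p) (fA 0) c) (Sum.elim (act (1 - p) (fD 0) c) 0) :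
          Fin nA ⊕ (Fin nD ⊕ Fin nD) → k) i • y i,
        ∑ i, (Sum.elim (-act (1 - p) (fA 1) c) (Sum.elim (-act (1 - p) (fD 1) c) 0) :
          Fin nA ⊕ (Fin nD ⊕ Fin nD) → k) i • y i,
        ∑ i, (0 : Fin nA ⊕ (Fin nD ⊕ Fin nD) → k) i • y i,
        ∑ i, (0 : Fin nA ⊕ (Fin nD ⊕ Fin nD) → k) i • y i] =
      ![act (1 - p) (fun c => ∑ j, g j (Sum.inr (0, c)) • y (Sum.inl j) +
          ∑ l, d l (Sum.inl (Sum.inr (0, c))) • y (Sum.inr (Sum.inl l))) c,
        -act (1 - p) (fun c => ∑ j, g j (Sum.inr (1, c)) • y (Sum.inl j) +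
          ∑ l, d l (Sum.inl (Sum.inr (1, c))) • y (Sum.inr (Sum.inl l))) c, 0, 0] := by
    intro y c
    rw [sum_form, sum_form, ← act_form (1 - p) 1 y c, ← act_form (1 - p) 0 y c]
    simp [Finset.sum_neg_distrib, neg_smul, add_comm]
  constructor
  · rintro ⟨y, hy, hy'⟩
    refine ⟨fun j => y (Sum.inl j), fun l => y (Sum.inr (Sum.inl l)),
      fun l => y (Sum.inr (Sum.inr l)), (e1 y).1 (hy ()), ?_, ?_, ?_⟩
    · intro l
      have := hy' (Sum.inl l)
      rw [Sum.elim_inl, row4, e2] at this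
      exact this
    · intro c
      have := hy' (Sum.inr (Sum.inl c))
      rw [Sum.elim_inr, Sum.elim_inl, row4, e3] at this
      exact this
    · intro c
      have := hy' (Sum.inr (Sum.inr c))
      rw [Sum.elim_inr, Sum.elim_inr, row4, e4] at this
      exact this
  · rintro ⟨w, m, m', h1, h2, h3, h4⟩
    refine ⟨Sum.elim w (Sum.elim m m'), fun _ => (e1 _).2 h1, ?_⟩
    rintro (l | c | c)
    · rw [Sum.elim_inl, row4, e2]
      exact h2 l
    · rw [Sum.elim_inr, Sum.elim_inl, row4, e3]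
      exact h3 c
    · rw [Sum.elim_inr, Sum.elim_inr, row4, e4]
      exact h4 c

end Pool.Agent.Helper58.CR
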