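import Pool.Agent.Helper88.CR.GoalsA

/-! Packet CR-P2: the product of four L series of real characters is at least one. -/

set_option autoImplicit false

open Finset Filter Topology

open scoped Classical ArithmeticFunction

namespace Pool.Agent.Helper58.CR

open Pool.Agent.Helper88.CR

theorem coprime_primorial {z n : ℕ} :
    Nat.Coprime n (primorial z) ↔ ∀ p, p.Prime → p ∣ n → z < p := by
  rw [primorial, Nat.coprime_prod_right_iff]
  constructor
  · intro h p hp hpn
    by_contra hz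
    have h1 := h p (by
      simp only [Finset.mem_filter]
      exact ⟨by simp; omega, hp⟩)
    have h2 : p ∣ 1 := by
      rw [← Nat.coprime_iff_gcd_eq_one.1 h1]
      exact Nat.dvd_gcd hpn dvd_rfl
    exact hp.one_lt.ne' (Nat.dvd_one.1 h2)
  · intro h p hp
    simp only [Finset.mem_filter] at hp
    obtain ⟨h1, h2⟩ := hp
    have h1' : p ≤ z := by simpa using h1
    rw [Nat.coprime_comm, h2.coprime_iff_not_dvd]
    intro h3
    exact absurd (h p h2 h3) (by omega)

theorem coprime_N {z q n : ℕ} [NeZero q] (hq : q ≤ z) (hn : n ≠ 0) :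
    Nat.Coprime n (q * primorial z) ↔ rg z n := by
  rw [Nat.coprime_mul_iff_right, coprime_primorial]
  constructor
  · rintro ⟨-, h⟩
    exact ⟨hn, h⟩
  · rintro ⟨-, h⟩
    refine ⟨?_, h⟩
    by_contra hc
    obtain ⟨p, hp, h1, h2⟩ := Nat.Prime.not_coprime_iff_dvd.1 hc
    have h3 := h p hp h1
    have h4 := Nat.le_of_dvd (Nat.pos_of_ne_zero (NeZero.ne q)) h2
    omega

theorem gj_zero (a : ℕ → ℂ) (n : ℕ) : gj a 0 n = a n := by
  simp [gj]

/-- The lifted character. -/
noncomputable def li (z : ℕ) {q : ℕ} (χ : DirichletCharacter ℂ q) :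
    DirichletCharacter ℂ (q * primorial z) :=
  DirichletCharacter.changeLevel (Nat.dvd_mul_right q (primorial z)) χ

theorem li_apply {z q : ℕ} [NeZero q] (hq : q ≤ z) (χ : DirichletCharacter ℂ q) {n : ℕ}
    (hn : n ≠ 0) : li z χ (n : ZMod (q * primorial z)) = ch z χ n := by
  unfold ch
  by_cases h : rg z n
  · rw [if_pos h]
    have hc := (coprime_N hq hn).2 h
    have h1 := DirichletCharacter.changeLevel_eq_cast_of_dvd' χ
      (Nat.dvd_mul_right q (primorial z)) (a := (n : ℤ)) (Nat.isCoprime_iff_coprime.2 hc)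
    simp only [Int.cast_natCast] at h1
    exact h1
  · rw [if_neg h]
    refine MulChar.map_nonunit _ ?_
    rw [ZMod.isUnit_iff_coprime]
    exact fun hc => h ((coprime_N hq hn).1 hc)

theorem LL_ch {z q : ℕ} [NeZero q] (hq : q ≤ z) (χ : DirichletCharacter ℂ q) (s : ℂ) :
    LL (ch z χ) 0 s = LSeries (fun n => li z χ (n : ZMod (q * primorial z))) s := by
  unfold LL
  refine LSeries_congr (fun {n} hn => ?_) s
  rw [gj_zero, li_apply hq χ hn]

theorem LL_one {z q : ℕ} [NeZero q] (hq : q ≤ z) (s : ℂ) :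
    LL (ci z 1 0) 0 s =
      LSeries (fun n => (1 : DirichletCharacter ℂ (q * primorial z)) (n : ZMod _)) s := by
  unfold LL
  refine LSeries_congr (fun {n} hn => ?_) s
  rw [gj_zero]
  unfold ci
  by_cases h : rg z n
  · rw [if_pos ⟨Nat.modEq_one, h⟩, MulChar.one_apply]
    rw [ZMod.isUnit_iff_coprime]
    exact (coprime_N hq hn).2 h
  · rw [if_neg (fun h' => h h'.2), MulChar.map_nonunit]
    rw [ZMod.isUnit_iff_coprime]
    exact fun hc => h ((coprime_N hq hn).1 hc)

/-- The Euler factors. -/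
theorem factor {N : ℕ} (χ ψ : DirichletCharacter ℂ N) (hχ : χ ^ 2 = 1) (hψ : ψ ^ 2 = 1) (x : ℝ)
    (hx : 0 < x) (p : Nat.Primes) :
    0 ≤ (-Complex.log (1 - (1 : DirichletCharacter ℂ N) (p : ZMod N) *
        (p : ℂ) ^ (-(1 + x : ℂ)))).re +
      (-Complex.log (1 - χ (p : ZMod N) * (p : ℂ) ^ (-(1 + x : ℂ)))).re +
      (-Complex.log (1 - ψ (p : ZMod N) * (p : ℂ) ^ (-(1 + x : ℂ)))).re +
      (-Complex.log (1 - (χ * ψ) (p : ZMod N) * (p : ℂ) ^ (-(1 + x : ℂ)))).re := by
  by_cases hu : IsUnit ((p : ℕ) : ZMod N)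
  · obtain ⟨u, hu0, hu1, hu2⟩ : ∃ u : ℝ, 0 ≤ u ∧ u < 1 ∧
        (p : ℂ) ^ (-(1 + x : ℂ)) = (u : ℂ) := by
      refine ⟨((p : ℕ) : ℝ) ^ (-(1 + x)), by positivity, ?_, ?_⟩
      · rw [Real.rpow_neg (Nat.cast_nonneg _), inv_lt_one_iff₀]
        exact .inr (Real.one_lt_rpow (by exact_mod_cast p.2.one_lt) (by linarith))
      · rw [Complex.ofReal_cpow (Nat.cast_nonneg _)]
        push_cast
        rfl
    have hsq : ∀ χ : DirichletCharacter ℂ N, χ ^ 2 = 1 →
        χ ((p : ℕ) : ZMod N) = 1 ∨ χ ((p : ℕ) : ZMod N) = -1 := by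
      intro χ hχ
      have h1 : (χ ((p : ℕ) : ZMod N)) ^ 2 = 1 := by
        rw [← MulChar.pow_apply' χ two_ne_zero, hχ, MulChar.one_apply hu]
      have h3 : (χ ((p : ℕ) : ZMod N) - 1) * (χ ((p : ℕ) : ZMod N) + 1) = 0 := by linear_combination h1
      rcases mul_eq_zero.1 h3 with h | h
      · exact Or.inl (sub_eq_zero.1 h)
      · exact Or.inr (eq_neg_of_add_eq_zero_left h)
    rw [hu2, MulChar.one_apply hu, MulChar.mul_apply]
    simp only [Complex.neg_re, Complex.log_re]
    have n1 : ‖(1 : ℂ) - 1 * (u : ℂ)‖ = 1 - u := by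
      rw [one_mul, ← Complex.ofReal_one, ← Complex.ofReal_sub, Complex.norm_real,
        Real.norm_of_nonneg (by linarith)]
    have n2 : ‖(1 : ℂ) - -1 * (u : ℂ)‖ = 1 + u := by
      have : (1 : ℂ) - -1 * (u : ℂ) = ((1 + u : ℝ) : ℂ) := by push_cast; ring
      rw [this, Complex.norm_real, Real.norm_of_nonneg (by linarith)]
    have l1 : Real.log (1 - u) ≤ 0 := Real.log_nonpos (by linarith) (by linarith)
    have l2 : Real.log (1 - u) + Real.log (1 + u) ≤ 0 := by
      rw [← Real.log_mul (by linarith) (by linarith)]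
      exact Real.log_nonpos (by nlinarith) (by nlinarith)
    rcases hsq χ hχ with h1 | h1 <;> rcases hsq ψ hψ with h2 | h2 <;> rw [h1, h2]
    · rw [mul_one (1 : ℂ), n1]; linarith
    · rw [one_mul (-1 : ℂ), n1, n2]; linarith
    · rw [mul_one (-1 : ℂ), n1, n2]; linarith
    · rw [neg_one_mul (-1 : ℂ), neg_neg, n1, n2]; linarith
  · have h0 : ∀ χ : DirichletCharacter ℂ N, χ ((p : ℕ) : ZMod N) = 0 := fun χ =>
      MulChar.map_nonunit _ hu
    rw [h0, h0, h0, h0]
    simp

theorem p2 : StmtP2 := by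
  intro z q _ hq χ ψ x hχ hψ hx
  have hs : 1 < (1 + x : ℂ).re := by simp [hx]
  rw [LL_one hq, LL_ch hq, LL_ch hq, LL_ch hq]
  have hm : li z (χ * ψ) = li z χ * li z ψ := map_mul _ _ _
  have h1 : li z χ ^ 2 = 1 := by
    show (DirichletCharacter.changeLevel _ χ) ^ 2 = 1
    rw [← map_pow, hχ, map_one]
  have h2 : li z ψ ^ 2 = 1 := by
    show (DirichletCharacter.changeLevel _ ψ) ^ 2 = 1
    rw [← map_pow, hψ, map_one]
  rw [hm]
  generalize li z χ = χ' at *
  generalize li z ψ = ψ' at *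
  have H₀ := DirichletCharacter.summable_neg_log_one_sub_mul_prime_cpow
    (1 : DirichletCharacter ℂ (q * primorial z)) hs
  have H₁ := DirichletCharacter.summable_neg_log_one_sub_mul_prime_cpow χ' hs
  have H₂ := DirichletCharacter.summable_neg_log_one_sub_mul_prime_cpow ψ' hs
  have H₃ := DirichletCharacter.summable_neg_log_one_sub_mul_prime_cpow (χ' * ψ') hs
  have R₀ := (Complex.hasSum_re H₀.hasSum)
  have R₁ := (Complex.hasSum_re H₁.hasSum)
  have R₂ := (Complex.hasSum_re H₂.hasSum)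
  have R₃ := (Complex.hasSum_re H₃.hasSum)
  rw [← DirichletCharacter.LSeries_eulerProduct_exp_log _ hs,
    ← DirichletCharacter.LSeries_eulerProduct_exp_log χ' hs,
    ← DirichletCharacter.LSeries_eulerProduct_exp_log ψ' hs,
    ← DirichletCharacter.LSeries_eulerProduct_exp_log (χ' * ψ') hs]
  simp only [Complex.norm_exp, ← Real.exp_add, Real.one_le_exp_iff]
  have hall := ((R₀.add R₁).add R₂).add R₃
  exact hall.nonneg fun p => factor χ' ψ' h1 h2 x hx p

end Pool.Agent.Helper58.CR
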